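import Mathlib
import Pool.Agent.Helper961.Aub.XRange
import Pool.Agent.Y203.QC.Sym

/-!
Project QC (owner helper203), job QC-XRANGE: range of the stacks of a configuration, validity.
Port of `Pool.Agent.Helper961.Aub.XRange`.
-/

set_option autoImplicit false

open Set Filter Topology

namespace Pool.Agent.Y203.QC

open Pool.Agent.Aub (mm lam Stk dt stp Sc S1 S2 Qx gT gt cT ct hC hX Dg Ty stg rho mu posn peel cE cF
  DD rb subTy subP subC sub broken Clamp Ix Zs stk reg mkz Wt f0 f1 f4 f6 g0 g1 M0 M4 M6 N1 tyj pj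
  Cell sT Dle vb tyn X07_vb X07_val)

theorem X07q_tl0 (tr : Fin 5) :
    0 ≤ tl0 tr ∧ tl0 tr ≤ mm + 1/16 ∧ (tr = 0 ∨ tr = 1 → tl0 tr ≤ 1 + 1/16) := by
  have hmm : (mm : ℝ) = 4096 := by
    unfold mm
    norm_num
  rw [hmm]
  fin_cases tr
  · change (0 : ℝ) ≤ 0 ∧ (0 : ℝ) ≤ _ ∧ (_ → (0 : ℝ) ≤ _)
    norm_num
  · change (0 : ℝ) ≤ 0 ∧ (0 : ℝ) ≤ _ ∧ (_ → (0 : ℝ) ≤ _)
    norm_num
  · change (0 : ℝ) ≤ lam / (lam - 1) ∧ lam / (lam - 1) ≤ _ ∧ (_ → lam / (lam - 1) ≤ _)
    unfold lam
    norm_num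
  · change (0 : ℝ) ≤ lam / (lam - 1) ∧ lam / (lam - 1) ≤ _ ∧ (_ → lam / (lam - 1) ≤ _)
    unfold lam
    norm_num
  · change (0 : ℝ) ≤ lam / (lam - 1) ∧ lam / (lam - 1) ≤ _ ∧ (_ → lam / (lam - 1) ≤ _)
    unfold lam
    norm_num

theorem X07q_zcval (tr : Fin 5) : zc.val tr + tl0 tr / lam = tl0 tr := by
  fin_cases tr
  · change vb false + 0 / lam = 0
    simp [vb]
  · change vb false + 0 / lam = 0
    simp [vb]
  · change ((1 : ℕ) : ℝ) + (lam / (lam - 1)) / lam = lam / (lam - 1)
    unfold lam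
    norm_num
  · change ((1 : ℕ) : ℝ) + (lam / (lam - 1)) / lam = lam / (lam - 1)
    unfold lam
    norm_num
  · change ((1 : ℕ) : ℝ) + (lam / (lam - 1)) / lam = lam / (lam - 1)
    unfold lam
    norm_num

/-- TARGET -/
theorem rl_nil (ty : Ty) (δ p : Fin 3) : rl ty δ p [zc] = rl ty δ p [] := by
  funext i tr
  have h1 : rl ty δ p [zc] i tr = if i = posn δ ty p then zc.val tr + tl0 tr / lam
      else tl0 tr := by
    rw [rl]
    simp only [rl]
  have h2 : rl ty δ p [] i tr = tl0 tr := by rw [rl]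
  rw [h1, h2]
  split_ifs
  · exact X07q_zcval tr
  · rfl

/-- TARGET -/
theorem rl_range (l : List Cell) (hD : Dle l) : ∀ (ty : Ty) (δ p : Fin 3) (i : Fin 3) (tr : Fin 5),
    0 ≤ rl ty δ p l i tr ∧ rl ty δ p l i tr ≤ mm + 1/16 ∧
    (tr = 0 ∨ tr = 1 → rl ty δ p l i tr ≤ 1 + 1/16) := by
  have hmm : (mm : ℝ) = 4096 := by
    unfold mm
    norm_num
  induction l with
  | nil =>
    intro ty δ p i tr
    have h0 : rl ty δ p [] i tr = tl0 tr := by rw [rl]
    rw [h0]
    exact X07q_tl0 tr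
  | cons a tl ih =>
    intro ty δ p i tr
    have ha : ∀ k, a.D k ≤ mm := hD a List.mem_cons_self
    have htl : Dle tl := fun c hc => hD c (List.mem_cons_of_mem _ hc)
    have h1 : rl ty δ p (a :: tl) i tr = if i = posn δ ty p then a.val tr +
        rl (sT ty a.b) (-δ) (subP δ ty p) tl i tr / lam
        else rl (sT ty a.b) (-δ) (subP δ ty p) tl i tr := by
      rw [rl]
    obtain ⟨g0, g1, g2⟩ := ih htl (sT ty a.b) (-δ) (subP δ ty p) i tr
    obtain ⟨v0, v1, v2⟩ := X07_val a ha tr
    rw [h1]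
    obtain ⟨v, hv⟩ : ∃ v, v = rl (sT ty a.b) (-δ) (subP δ ty p) tl i tr := ⟨_, rfl⟩
    rw [← hv] at g0 g1 g2 ⊢
    by_cases hi : i = posn δ ty p
    · rw [if_pos hi]
      have hl : v / lam ≤ 1 / 16 := by
        unfold lam
        rw [div_le_iff₀ (by norm_num)]
        rw [hmm] at g1
        linarith
      have hl0 : 0 ≤ v / lam := by
        unfold lam
        positivity
      refine ⟨by linarith, by linarith, ?_⟩
      intro ht
      have := v2 ht
      linarith
    · rw [if_neg hi]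
      exact ⟨g0, g1, g2⟩

theorem X07q_mm : mm = 4096 := rfl
theorem X07q_bb : bb = 4095 := rfl

theorem X07q_low (x y : ℕ) (hx : x ≤ mm) (hy : y ≤ mm) :
    (low x y).1 ≤ mm ∧ (low x y).2 ≤ mm := by
  have h1 := X07q_mm
  have h2 := X07q_bb
  unfold low
  split_ifs
  · constructor
    · change x + 1 ≤ mm
      omega
    · change 1 ≤ mm
      omega
  · constructor
    · change x - 1 ≤ mm
      omega
    · change bb ≤ mm
      omega
  · exact ⟨hx, hy⟩

theorem X07q_carry_le (D : Fin 3 → ℕ) (y : ℕ) (h : ∀ k, D k ≤ mm) (hy : y ≤ mm) (k : Fin 3) :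
    carry D y k ≤ mm := by
  have h1 := X07q_low (D 1) y (h 1) hy
  have h0 := X07q_low (D 0) (low (D 1) y).1 (h 0) h1.1
  fin_cases k
  · exact h0.1
  · exact h0.2
  · exact h1.2

theorem X07q_ttuu (a e : Cell) (h : a.D 2 ≤ mm) : a.D 2 + tt a e - uu a e ≤ mm := by
  unfold tt uu
  split_ifs with c <;> omega

theorem X07q_newc (r : Bool) (a e : Cell) (h : ∀ k, a.D k ≤ mm) (k : Fin 3) :
    (newc r a e).D k ≤ mm := by
  unfold newc
  cases r with
  | true => exact Nat.zero_le _
  | false => exact X07q_carry_le a.D _ h (X07q_ttuu a e (h 2)) k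

theorem X07q_Dle_setD (x : ℕ) (hx : x ≤ mm) (l : List Cell) (h : Dle l) : Dle (setD x l) := by
  cases l with
  | nil => exact h
  | cons a tl =>
    intro c hc k
    rw [setD, List.mem_cons] at hc
    rcases hc with rfl | hc
    · by_cases hk : k = 0
      · subst hk
        change Function.update a.D 0 x 0 ≤ mm
        rw [Function.update_self]
        exact hx
      · change Function.update a.D 0 x k ≤ mm
        rw [Function.update_of_ne hk]
        exact h a List.mem_cons_self k
    · exact h c (List.mem_cons_of_mem _ hc) k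

theorem X07q_Dle_upd (a : Cell) (l : List Cell) (h : Dle l) : Dle (upd a l) := by
  unfold upd
  split_ifs
  · exact X07q_Dle_setD 1 (by rw [X07q_mm]; norm_num) l h
  · exact X07q_Dle_setD bb (by rw [X07q_mm, X07q_bb]; norm_num) l h
  · exact h

theorem X07q_Dle_cons {a : Cell} {l : List Cell} (ha : ∀ k, a.D k ≤ mm) (h : Dle l) :
    Dle (a :: l) := by
  intro c hc
  rw [List.mem_cons] at hc
  rcases hc with rfl | hc
  · exact ha
  · exact h c hc

theorem X07q_zc (k : Fin 3) : zc.D k ≤ mm := by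
  change 1 ≤ mm
  rw [X07q_mm]
  norm_num

theorem X07q_Dle_stE (r : Bool) (l : List Cell) (h : Dle l) : Dle (stE r l) := by
  cases l with
  | nil =>
    rw [stE]
    exact X07q_Dle_cons (X07q_newc r zc zc X07q_zc) (fun c hc => absurd hc (by simp))
  | cons a tl =>
    have ha : ∀ k, a.D k ≤ mm := h a List.mem_cons_self
    have htl : Dle tl := fun c hc => h c (List.mem_cons_of_mem _ hc)
    rw [stE]
    exact X07q_Dle_cons (X07q_newc r a _ ha) (X07q_Dle_upd a tl htl)

theorem X07q_Dle_stF (l : List Cell) (h : Dle l) : Dle (stF l) := by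
  induction l with
  | nil =>
    rw [stF]
    exact X07q_Dle_cons X07q_zc (X07q_Dle_stE false [] h)
  | cons a tl ih =>
    have ha : ∀ k, a.D k ≤ mm := h a List.mem_cons_self
    have htl : Dle tl := fun c hc => h c (List.mem_cons_of_mem _ hc)
    rw [stF]
    refine X07q_Dle_cons ha ?_
    split_ifs
    · exact ih htl
    · exact X07q_Dle_stE false tl htl

theorem X07q_val_setD (ty : Ty) (x : ℕ) (l : List Cell) (h : Val ty l) : Val ty (setD x l) := by
  cases l with
  | nil => exact h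
  | cons a tl =>
    rw [setD, Val]
    rw [Val] at h
    exact h

theorem X07q_val_upd (ty : Ty) (a : Cell) (l : List Cell) (h : Val ty l) : Val ty (upd a l) := by
  unfold upd
  split_ifs
  · exact X07q_val_setD ty 1 l h
  · exact X07q_val_setD ty bb l h
  · exact h

theorem X07q_hd_setD (x : ℕ) (l : List Cell) : (hd (setD x l)).c = (hd l).c := by
  cases l with
  | nil => rfl
  | cons a tl => rfl

theorem X07q_hd_upd (a : Cell) (l : List Cell) : (hd (upd a l)).c = (hd l).c := by
  unfold upd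
  split_ifs
  · exact X07q_hd_setD 1 l
  · exact X07q_hd_setD bb l
  · rfl

theorem X07q_val_stE (r : Bool) (l : List Cell) (h : Val Ty.E l) : Val Ty.F (stE r l) := by
  cases l with
  | nil =>
    rw [stE, Val]
    refine ⟨fun _ => rfl, ?_⟩
    rw [Val]
    trivial
  | cons a tl =>
    rw [Val] at h
    rw [stE, Val]
    constructor
    · intro _
      rw [X07q_hd_upd]
      rfl
    · have h2 : sT Ty.F (newc r a (hd tl)).b = sT Ty.E a.b := by
        change sT Ty.F (!a.b) = sT Ty.E a.b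
        cases a.b <;> rfl
      rw [h2]
      exact X07q_val_upd _ _ _ h.2

theorem X07q_val_stF (l : List Cell) (h : Val Ty.F l) : Val Ty.E (stF l) := by
  induction l with
  | nil =>
    rw [stF, Val]
    refine ⟨fun h0 => (by cases h0), ?_⟩
    exact X07q_val_stE false [] (by rw [Val]; trivial)
  | cons a tl ih =>
    rw [Val] at h
    rw [stF, Val]
    refine ⟨fun h0 => (by cases h0), ?_⟩
    obtain ⟨_, h2⟩ := h
    cases hb : a.b with
    | true =>
      rw [hb] at h2
      rw [if_pos rfl]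
      exact ih h2
    | false =>
      rw [hb] at h2
      rw [if_neg (by simp)]
      exact X07q_val_stE false tl h2

/-- TARGET -/
theorem st_val (ty : Ty) (r : Bool) (l : List Cell) (hD : Dle l) (hv : Val ty l) :
    Val ty.other (st ty r l) ∧ Dle (st ty r l) := by
  cases ty with
  | E => exact ⟨X07q_val_stE r l hv, X07q_Dle_stE r l hD⟩
  | F => exact ⟨X07q_val_stF l hv, X07q_Dle_stF l hD⟩

end Pool.Agent.Y203.QC
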