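import Mathlib
import Pool.Agent.Helper961.Aub.XReg
import Pool.Agent.Y203.QC.Mach

/-!
Project QC (owner helper203), job QC-XREG: registers and bounds of a conditional move.
Port of `Pool.Agent.Helper961.Aub.XReg`.
-/

set_option autoImplicit false

open Set Filter Topology

namespace Pool.Agent.Y203.QC

open Pool.Agent.Aub (mm lam Stk dt stp Sc S1 S2 Qx gT gt cT ct hC hX Dg Ty stg rho mu posn peel cE cF
  DD rb subTy subP subC sub broken Clamp Ix Zs stk reg mkz Wt f0 f1 f4 f6 g0 g1 M0 M4 M6 N1 tyj pj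
  X02_stk_mkz X02_reg_mkz X02_stk_add X02_reg_add X02_stp X02_Sc X02_sum X02_S1 X02_S2 X02_Qx
  X02_mul X02_sub X02_mulm X02_one X02_up X02_gT X02_gt X02_cT X02_ct X02_Wt X02_Wt_congr X02_zero
  X02_f1 X02_f1_zero X02_exp X02_rd X02_M0)

attribute [local irreducible] S1 S2 Qx

theorem X02q_bT (a b : ℝ) : 0 ≤ bT a b ∧ bT a b ≤ 1 :=
  X02_mul (X02_stp _ _ _) (X02_sub (X02_stp _ _ _))
theorem X02q_bt (a b : ℝ) : 0 ≤ bt a b ∧ bt a b ≤ 1 :=
  X02_mul (X02_stp _ _ _) (X02_sub (X02_stp _ _ _))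

theorem X02q_diff {a g c h e : ℝ} (ha : 0 ≤ a ∧ a ≤ 1) (hg : 0 ≤ g ∧ g ≤ 1) (hc : 0 ≤ c ∧ c ≤ 1)
    (hh : 0 ≤ h ∧ h ≤ 1) (he : 0 ≤ e ∧ e ≤ 1) :
    -1 ≤ a * (g * c - h * e) ∧ a * (g * c - h * e) ≤ 1 := by
  have h1 := X02_mul hg hc
  have h2 := X02_mul hh he
  constructor
  · nlinarith [ha.1, ha.2, h1.1, h1.2, h2.1, h2.2]
  · nlinarith [ha.1, ha.2, h1.1, h1.2, h2.1, h2.2]

theorem X02_f2 (d : Fin 3) (z : Zs) (k : Fin 12) :
    -1 ≤ reg (f2 d z) k ∧ reg (f2 d z) k ≤ 1 := by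
  rw [f2, X02_reg_mkz]
  have h0 : (-1 : ℝ) ≤ 0 ∧ (0 : ℝ) ≤ 1 := ⟨by norm_num, zero_le_one⟩
  fin_cases k
  · exact h0
  · exact h0
  · exact h0
  · exact h0
  · exact h0
  · exact h0
  · exact h0
  · exact h0
  · exact h0
  · exact h0
  · exact X02q_diff (X02_sub (X02_Sc _)) (X02_gT _) (X02_cT _ _) (X02_gt _) (X02q_bt _ _)
  · exact X02q_diff (X02_sub (X02_Sc _)) (X02_gt _) (X02_ct _ _) (X02_gT _) (X02q_bT _ _)

theorem X02_f2_zero (d : Fin 3) (z : Zs) : reg (f2 d z) 0 = 0 := rfl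

theorem X02q_Sg (t : ℝ) : -1 ≤ Sg t ∧ Sg t ≤ 1 := by
  unfold Sg
  have h1 := X02_Sc t
  have h2 := X02_Sc (-t)
  constructor <;> linarith [h1.1, h1.2, h2.1, h2.2]

/-- the intermediate states -/
theorem X02_cm (cc : Clamp (5/4)) (cx : Clamp (mm + 1/2)) (b : Bool) (s d : Fin 3) (r : ℝ)
    (z : Zs) : ∃ z1 z2 z3 z4 z5 : Zs,
      z1 = M0 cc cx s d z + f1 s d (M0 cc cx s d z) ∧ z2 = z1 + f2 d z1 ∧
      z3 = z2 + f3 b s d z2 ∧ z4 = M4 b s d z3 ∧ z5 = z4 + f5 b d r z4 ∧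
      cm cc cx b s d r z = M6 z5 :=
  ⟨_, _, _, _, _, rfl, rfl, rfl, rfl, rfl, rfl⟩

theorem X02_r0 (cc : Clamp (5/4)) (cx : Clamp (mm + 1/2)) (b : Bool) (s d : Fin 3) (r : ℝ)
    (z z1 z2 z3 z4 z5 : Zs)
    (h1 : z1 = M0 cc cx s d z + f1 s d (M0 cc cx s d z)) (h2 : z2 = z1 + f2 d z1)
    (h3 : z3 = z2 + f3 b s d z2) (h4 : z4 = M4 b s d z3) (h5 : z5 = z4 + f5 b d r z4) :
    reg z1 0 = reg z 0 ∧ reg z2 0 = reg z 0 ∧ reg z3 0 = reg z 0 ∧ reg z4 0 = reg z 0 ∧
      reg z5 0 = reg z 0 := by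
  have e1 : reg z1 0 = reg z 0 := by
    rw [h1, X02_reg_add, X02_f1_zero, add_zero]; rfl
  have e2 : reg z2 0 = reg z 0 := by
    rw [h2, X02_reg_add, X02_f2_zero, add_zero, e1]
  have e3 : reg z3 0 = reg z 0 := by
    rw [h3, X02_reg_add, e2]
    simp [f3, X02_reg_mkz]
  have e4 : reg z4 0 = reg z 0 := by
    rw [h4, M4, X02_reg_mkz, e3]
  have e5 : reg z5 0 = reg z 0 := by
    rw [h5, X02_reg_add, e4]
    simp [f5, X02_reg_mkz]
  exact ⟨e1, e2, e3, e4, e5⟩

/-- TARGET -/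
theorem cm_reg (cc : Clamp (5/4)) (cx : Clamp (mm + 1/2)) (b : Bool) (s d : Fin 3)
    (hsd : s ≠ d) (r : ℝ) (z : Zs) (hR : ∀ k, k ≠ 0 → |reg z k| ≤ 1/16) :
    reg (cm cc cx b s d r z) 0 = reg z 0 ∧
    ∀ k, k ≠ 0 → |reg (cm cc cx b s d r z) k| ≤ 1/32 := by
  obtain ⟨z1, z2, z3, z4, z5, h1, h2, h3, h4, h5, h6⟩ := X02_cm cc cx b s d r z
  obtain ⟨e1, e2, e3, e4, e5⟩ := X02_r0 cc cx b s d r z z1 z2 z3 z4 z5 h1 h2 h3 h4 h5
  constructor
  · rw [h6, M6, X02_reg_mkz]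
    simp [e5]
  · intro k hk
    rw [h6, M6, X02_reg_mkz]
    simp only [hk, if_false]
    have a5 : reg z5 k = reg z4 k := by
      rw [h5, X02_reg_add]; simp [f5, X02_reg_mkz]
    have a4 : reg z4 k = reg z3 k := by rw [h4, M4, X02_reg_mkz]
    have a3 : reg z3 k = reg z2 k := by
      rw [h3, X02_reg_add]; simp [f3, X02_reg_mkz]
    have a2 : reg z2 k = reg z1 k + reg (f2 d z1) k := by rw [h2, X02_reg_add]
    have a1 : reg z1 k = reg z k + reg (f1 s d (M0 cc cx s d z)) k := by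
      rw [h1, X02_reg_add]; rfl
    rw [a5, a4, a3, a2, a1, abs_mul, abs_of_pos (Real.exp_pos _)]
    have b1 := X02_f1 s d (M0 cc cx s d z) k
    have b2 := X02_f2 d z1 k
    have b0 := abs_le.1 (hR k hk)
    have hmm : (mm : ℝ) = 4096 := by norm_num [mm]
    rw [hmm] at b1
    have hb : |reg z k + reg (f1 s d (M0 cc cx s d z)) k + reg (f2 d z1) k| ≤ 4098 := by
      rw [abs_le]; constructor <;> linarith [b0.1, b0.2, b1.1, b1.2, b2.1, b2.2]
    calc Real.exp (-16) * |reg z k + reg (f1 s d (M0 cc cx s d z)) k + reg (f2 d z1) k|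
        ≤ (1 / 1000000) * 4098 := mul_le_mul X02_exp hb (abs_nonneg _) (by norm_num)
      _ ≤ 1 / 32 := by norm_num

theorem X02_pushed (r : ℝ) (z : Zs) (tr : Fin 5) :
    0 ≤ pushed r z tr ∧ pushed r z tr ≤ (mm : ℝ) := by
  unfold pushed
  fin_cases tr
  · exact X02_up (X02_sub (X02_Sc _))
  · exact X02_up (X02_mul (X02_sub (X02_Sc _)) (X02_sub (X02_Sc _)))
  · exact X02_Qx _
  · exact X02_Qx _
  · exact X02_Qx _

theorem X02_rd (z : Zs) (tr : Fin 5) :
    0 ≤ (![Sc (reg z 1), Sc (reg z 2), Qx (reg z 7), Qx (reg z 8), Qx (reg z 9)] : Fin 5 → ℝ) tr ∧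
    (![Sc (reg z 1), Sc (reg z 2), Qx (reg z 7), Qx (reg z 8), Qx (reg z 9)] : Fin 5 → ℝ) tr
      ≤ (mm : ℝ) := by
  fin_cases tr
  · exact X02_up (X02_Sc _)
  · exact X02_up (X02_Sc _)
  · exact X02_Qx _
  · exact X02_Qx _
  · exact X02_Qx _

theorem X02_M0 (cc : Clamp (5/4)) (cx : Clamp (mm + 1/2)) (s d : Fin 3) (z : Zs)
    (hS : ∀ i tr, |stk z i tr| ≤ 2 ^ 32) (i : Fin 3) (tr : Fin 5) (hi : i = s ∨ i = d) :
    -1/2 ≤ stk (M0 cc cx s d z) i tr ∧ stk (M0 cc cx s d z) i tr ≤ (mm : ℝ) + 3/4 := by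
  rw [M0, X02_stk_mkz]
  simp only [hi, if_true]
  have hmm : (mm : ℝ) = 4096 := by norm_num [mm]
  split_ifs with h
  · have := cc.rng _ (hS i tr)
    constructor
    · exact this.1
    · rw [hmm]; linarith [this.2]
  · have := cx.rng _ (hS i tr)
    constructor
    · exact this.1
    · linarith [this.2]

/-- TARGET -/
theorem cm_bound (cc : Clamp (5/4)) (cx : Clamp (mm + 1/2)) (b : Bool) (s d : Fin 3)
    (hsd : s ≠ d) (r : ℝ) (z : Zs) (hS : ∀ i tr, |stk z i tr| ≤ 2 ^ 32) :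
    (∀ i tr, (i = s ∨ i = d) → |stk (cm cc cx b s d r z) i tr| ≤ 2 ^ 31) ∧
    ∀ i tr, i ≠ s → i ≠ d → stk (cm cc cx b s d r z) i tr = stk z i tr := by
  obtain ⟨z1, z2, z3, z4, z5, h1, h2, h3, h4, h5, h6⟩ := X02_cm cc cx b s d r z
  obtain ⟨e1, e2, e3, e4, e5⟩ := X02_r0 cc cx b s d r z z1 z2 z3 z4 z5 h1 h2 h3 h4 h5
  have hmm : (mm : ℝ) = 4096 := by norm_num [mm]
  have c1 : ∀ i tr, stk z1 i tr = stk (M0 cc cx s d z) i tr := by
    intro i tr; rw [h1, X02_stk_add]; simp [f1, X02_stk_mkz]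
  have c2 : ∀ i tr, stk z2 i tr = stk z1 i tr := by
    intro i tr; rw [h2, X02_stk_add]; simp [f2, X02_stk_mkz]
  have c6 : ∀ i tr, stk (cm cc cx b s d r z) i tr = stk z5 i tr := by
    intro i tr; rw [h6, M6, X02_stk_mkz]
  constructor
  · intro i tr hi
    have g0 := X02_M0 cc cx s d z hS i tr hi
    rw [← c1, ← c2, hmm] at g0
    rw [c6]
    have w3 := X02_Wt b z2
    have w4 := X02_Wt b z3
    have w5 := X02_Wt b z4
    by_cases his : i = s
    · have hid : i ≠ d := by rw [his]; exact hsd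
      have g3 : |stk z3 i tr| ≤ 8193 := by
        rw [h3, X02_stk_add, f3, X02_stk_mkz]
        simp only [his, if_true]
        have hr := X02_mulm w3 (X02_rd z2 tr)
        rw [hmm] at hr
        rw [his] at g0
        rw [abs_le]
        constructor <;> linarith [g0.1, g0.2, hr.1, hr.2]
      have g4 : |stk z4 i tr| ≤ 131072 * 8193 := by
        rw [h4, M4, X02_stk_mkz]
        simp only [his, if_true]
        rw [his] at g3
        rw [abs_mul, abs_of_pos (Real.exp_pos _)]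
        have hl : Real.exp (Wt b z3 * Real.log lam) ≤ 131072 := by
          have hlog : 0 ≤ Real.log lam := Real.log_nonneg (by norm_num [lam])
          calc Real.exp (Wt b z3 * Real.log lam) ≤ Real.exp (Real.log lam) := by
                apply Real.exp_le_exp.2
                nlinarith [w4.1, w4.2]
            _ = 131072 := by rw [Real.exp_log (by norm_num [lam])]; rfl
        exact mul_le_mul hl g3 (abs_nonneg _) (by norm_num)
      have g5 : stk z5 i tr = stk z4 i tr := by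
        rw [h5, X02_stk_add, f5, X02_stk_mkz]
        simp [hid]
      rw [g5]
      refine g4.trans (by norm_num)
    · have hid : i = d := by
        rcases hi with h | h
        · exact absurd h his
        · exact h
      have g3 : |stk z3 i tr| ≤ 8193 := by
        rw [h3, X02_stk_add, f3, X02_stk_mkz]
        simp only [his, if_false]
        have hSg := X02q_Sg (reg z2 10)
        have hr : -4095 ≤ Wt b z2 * (bb * Sg (reg z2 10)) ∧
            Wt b z2 * (bb * Sg (reg z2 10)) ≤ 4095 := by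
          have hbb : (bb : ℝ) = 4095 := by norm_num [bb]
          rw [hbb]
          constructor <;> nlinarith [w3.1, w3.2, hSg.1, hSg.2]
        rw [abs_le]
        split_ifs
        · constructor <;> linarith [g0.1, g0.2, hr.1, hr.2]
        · constructor <;> linarith [g0.1, g0.2]
      have g4 : |stk z4 i tr| ≤ 8193 := by
        rw [h4, M4, X02_stk_mkz]
        simp only [his, if_false, hid, if_true]
        rw [hid] at g3
        have hne : d ≠ s := fun h => hsd h.symm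
        simp only [hne, if_false]
        rw [abs_mul, abs_of_pos (Real.exp_pos _)]
        have hl : Real.exp (-(Wt b z3 * Real.log lam)) ≤ 1 := by
          have hlog : 0 ≤ Real.log lam := Real.log_nonneg (by norm_num [lam])
          rw [Real.exp_le_one_iff]
          nlinarith [w4.1, w4.2]
        calc Real.exp (-(Wt b z3 * Real.log lam)) * |stk z3 d tr| ≤ 1 * 8193 :=
              mul_le_mul hl g3 (abs_nonneg _) (by norm_num)
          _ = 8193 := by norm_num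
      have g5 : |stk z5 i tr| ≤ 8193 + 4096 := by
        rw [h5, X02_stk_add, f5, X02_stk_mkz]
        simp only [hid, if_true]
        rw [hid] at g4
        have hr := X02_mulm w5 (X02_pushed r z4 tr)
        rw [hmm] at hr
        have := abs_le.1 g4
        rw [abs_le]
        constructor <;> linarith [this.1, this.2, hr.1, hr.2]
      refine g5.trans (by norm_num)
  · intro i tr his hid
    rw [c6, h5, X02_stk_add, f5, X02_stk_mkz, h4, M4, X02_stk_mkz, h3, X02_stk_add, f3,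
      X02_stk_mkz]
    simp only [his, hid, if_false, false_and, add_zero]
    rw [c2, c1, M0, X02_stk_mkz]
    simp [his, hid]

/-- TARGET -/
theorem cm_zero (cc : Clamp (5/4)) (cx : Clamp (mm + 1/2)) (b : Bool) (s d : Fin 3)
    (hsd : s ≠ d) (r : ℝ) (z : Zs) (hw : Wt b z = 0) :
    stk (cm cc cx b s d r z) = stk (M0 cc cx s d z) := by
  obtain ⟨z1, z2, z3, z4, z5, h1, h2, h3, h4, h5, h6⟩ := X02_cm cc cx b s d r z
  obtain ⟨e1, e2, e3, e4, e5⟩ := X02_r0 cc cx b s d r z z1 z2 z3 z4 z5 h1 h2 h3 h4 h5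
  have c1 : ∀ i tr, stk z1 i tr = stk (M0 cc cx s d z) i tr := by
    intro i tr; rw [h1, X02_stk_add]; simp [f1, X02_stk_mkz]
  have c2 : ∀ i tr, stk z2 i tr = stk z1 i tr := by
    intro i tr; rw [h2, X02_stk_add]; simp [f2, X02_stk_mkz]
  have c6 : ∀ i tr, stk (cm cc cx b s d r z) i tr = stk z5 i tr := by
    intro i tr; rw [h6, M6, X02_stk_mkz]
  have w2 : Wt b z2 = 0 := by rw [X02_Wt_congr b z2 z e2, hw]
  have w3 : Wt b z3 = 0 := by rw [X02_Wt_congr b z3 z e3, hw]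
  have w4 : Wt b z4 = 0 := by rw [X02_Wt_congr b z4 z e4, hw]
  funext i tr
  rw [c6, h5, X02_stk_add, f5, X02_stk_mkz, w4, h4, M4, X02_stk_mkz, w3, h3, X02_stk_add, f3,
      X02_stk_mkz, w2]
  simp [c2, c1]

end Pool.Agent.Y203.QC
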