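import Mathlib
import Pool.Agent.Helper961.Aub.XTickE
import Pool.Agent.Y203.QC.Sym
import Pool.Agent.Y350.QC.XReg
import Pool.Agent.Y350.QC.XRange
import Pool.Agent.Y563.QC.XExact

/-!
Project QC (owner helper203), job QC-XTICKE: one tick at exact states.
Port of `Pool.Agent.Helper961.Aub.XTickE`.
-/

set_option autoImplicit false

open Set Filter Topology

namespace Pool.Agent.Y203.QC

open Pool.Agent.Aub (mm lam Stk dt stp Sc S1 S2 Qx gT gt cT ct hC hX Dg Ty stg rho mu posn peel cE cF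
  DD rb subTy subP subC sub broken Clamp Ix Zs stk reg mkz Wt f0 f1 f4 f6 g0 g1 M0 M4 M6 N1 tyj pj
  Cell sT Dle vb tyn X08_f1 X08_f2 X08_f3 X08_small X08_lam X08_R X08_stk_add X08_reg_add
  X08_stk_mkz X08_reg_mkz X08_R_add X08_Wt X08_Sc1 X08_Sc0)

theorem X08q_stEnil (r : Bool) : stE r [zc] = stE r [] := by
  simp [stE, upd, hd, tt, uu, zc, mm]

theorem X08q_tl0 (tr : Fin 5) : 0 ≤ tl0 tr - zc.val tr ∧ tl0 tr - zc.val tr ≤ 1 / 16 := by
  have h := X07q_zcval tr
  have h2 := (X07q_tl0 tr).1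
  have h3 := (X07q_tl0 tr).2.1
  have h4 : tl0 tr - zc.val tr = tl0 tr / lam := by linarith
  rw [h4]
  exact ⟨div_nonneg h2 X08_lam.le, X08_small h3⟩

theorem X08q_E1 (cc : Clamp (5/4)) (cx : Clamp (mm + 1/2)) (b : Bool) (a : Cell)
    (tl : List Cell) (δ p : Fin 3)
    (hδ : δ ≠ 0) (r : Bool) (w : Zs) (hR : ∀ k, k ≠ 0 → |reg w k| ≤ 1/16) (hw : Wt b w = 1)
    (hz : stk w = rl Ty.E δ p (a :: tl)) (hD : Dle (a :: tl)) :
    stk (cm cc cx b (p - δ) (p + δ) (if r then 1 else 0) w) =
      rl Ty.F δ (p + δ) (stE r (a :: tl)) := by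
  obtain ⟨h1, h2, h3, h4⟩ := X08_f1 p δ hδ
  have hDt : Dle tl := fun c hc => hD c (List.mem_cons_of_mem _ hc)
  have hDa : ∀ k, a.D k ≤ mm := hD a List.mem_cons_self
  have hDe : ∀ k, (hd tl).D k ≤ mm := by
    cases tl with
    | nil => intro k; exact X07q_zc k
    | cons e t => exact hDt e List.mem_cons_self
  have hs : ∀ tr, stk w (p - δ) tr = a.val tr + rl (sT Ty.E a.b) (-δ) (p + δ) tl (p - δ) tr / lam := by
    intro tr; rw [hz]; simp [rl, posn, subP]
  have ho : ∀ i tr, i ≠ p - δ → stk w i tr = rl (sT Ty.E a.b) (-δ) (p + δ) tl i tr := by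
    intro i tr hi; rw [hz]; simp [rl, posn, subP, hi]
  have hrg := rl_range tl hDt (sT Ty.E a.b) (-δ) (p + δ)
  have hye : a.b = false → ∀ tr, 0 ≤ stk w (p + δ) tr - (hd tl).val tr ∧
      stk w (p + δ) tr - (hd tl).val tr ≤ 1 / 16 := by
    intro hb tr
    rw [ho _ _ h1.symm]
    rw [hb]
    cases tl with
    | nil =>
      simp only [rl, hd]
      exact X08q_tl0 tr
    | cons e t =>
      have hDt' : Dle t := fun c hc => hDt c (List.mem_cons_of_mem _ hc)
      have e1 : rl (sT Ty.E false) (-δ) (p + δ) (e :: t) (p + δ) tr - (hd (e :: t)).val tr =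
          rl (sT (sT Ty.E false) e.b) (- -δ) (subP (-δ) (sT Ty.E false) (p + δ)) t (p + δ) tr / lam := by
        simp [rl, hd, posn, sT]
      rw [e1]
      have h5 := rl_range t hDt' (sT (sT Ty.E false) e.b) (- -δ)
        (subP (-δ) (sT Ty.E false) (p + δ)) (p + δ) tr
      exact ⟨div_nonneg h5.1 X08_lam.le, X08_small h5.2.1⟩
  have hx : ∀ tr, 0 ≤ rl (sT Ty.E a.b) (-δ) (p + δ) tl (p - δ) tr ∧
      rl (sT Ty.E a.b) (-δ) (p + δ) tl (p - δ) tr ≤ mm + 1/16 :=
    fun tr => ⟨(hrg _ tr).1, (hrg _ tr).2.1⟩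
  have hy : ∀ tr, 0 ≤ stk w (p + δ) tr ∧ stk w (p + δ) tr ≤ mm + 1/16 := by
    intro tr
    rw [ho _ _ h1.symm]
    exact ⟨(hrg _ tr).1, (hrg _ tr).2.1⟩
  have hy01 : stk w (p + δ) 0 ≤ 1 + 1/16 ∧ stk w (p + δ) 1 ≤ 1 + 1/16 := by
    rw [ho _ _ h1.symm, ho _ _ h1.symm]
    exact ⟨(hrg _ 0).2.2 (Or.inl rfl), (hrg _ 1).2.2 (Or.inr rfl)⟩
  have hx01 : rl (sT Ty.E a.b) (-δ) (p + δ) tl (p - δ) 0 ≤ 1 + 1/16 ∧
      rl (sT Ty.E a.b) (-δ) (p + δ) tl (p - δ) 1 ≤ 1 + 1/16 :=
    ⟨(hrg _ 0).2.2 (Or.inl rfl), (hrg _ 1).2.2 (Or.inr rfl)⟩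
  rw [cm_exact cc cx b (p - δ) (p + δ) h1 r w hR hw a (hd tl) hDa hDe
    (rl (sT Ty.E a.b) (-δ) (p + δ) tl (p - δ)) hx hs hy hy01 hx01 hye]
  have hsT : sT Ty.F (newc r a (hd tl)).b = sT Ty.E a.b := by
    cases hb : a.b <;> simp [newc, sT, hb]
  have htl : ∀ i tr, rl (sT Ty.E a.b) (-δ) (p + δ) (upd a tl) i tr =
      rl (sT Ty.E a.b) (-δ) (p + δ) tl i tr +
        (if i = p + δ ∧ tr = 2 then (bb : ℝ) * uu a (hd tl) - bb * tt a (hd tl) else 0) := by
    intro i tr
    by_cases ht' : a.b = false ∧ (hd tl).D 0 = mm ∧ a.D 2 < mm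
    · have ht : tt a (hd tl) = 1 := by rw [tt, if_pos ht']
      have hu : uu a (hd tl) = 0 := by
        rw [uu, if_neg]
        rintro ⟨_, h, _⟩
        rw [ht'.2.1] at h
        exact absurd h (by norm_num [mm])
      rw [upd, if_pos ht, ht, hu]
      cases tl with
      | nil =>
        have := ht'.2.1
        simp [hd, zc, mm] at this
      | cons e t =>
        have he : e.D 0 = mm := ht'.2.1
        rw [ht'.1]
        by_cases hi : i = p + δ
        · subst hi
          simp only [rl, setD, sT, posn, if_true, true_and]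
          fin_cases tr
          · simp [Cell.val]
          · simp [Cell.val]
          · simp [Cell.val, he, mm, bb]
            ring
          · simp [Cell.val]
          · simp [Cell.val]
        · simp [rl, setD, sT, posn, hi]
    · have ht : tt a (hd tl) = 0 := by rw [tt, if_neg ht']
      by_cases hu' : a.b = false ∧ (hd tl).D 0 = 0 ∧ 0 < a.D 2
      · have hu : uu a (hd tl) = 1 := by rw [uu, if_pos hu']
        rw [upd, if_neg (by rw [ht]; norm_num), if_pos hu, ht, hu]
        cases tl with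
        | nil =>
          have := hu'.2.1
          simp [hd, zc] at this
        | cons e t =>
          have he : e.D 0 = 0 := hu'.2.1
          rw [hu'.1]
          by_cases hi : i = p + δ
          · subst hi
            simp only [rl, setD, sT, posn, if_true, true_and]
            fin_cases tr
            · simp [Cell.val]
            · simp [Cell.val]
            · simp [Cell.val, he, bb]
              ring
            · simp [Cell.val]
            · simp [Cell.val]
          · simp [rl, setD, sT, posn, hi]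
      · have hu : uu a (hd tl) = 0 := by rw [uu, if_neg hu']
        rw [upd, if_neg (by rw [ht]; norm_num), if_neg (by rw [hu]; norm_num), ht, hu]
        simp
  funext i tr
  have hR2 : rl Ty.F δ (p + δ) (stE r (a :: tl)) i tr =
      if i = p + δ then (newc r a (hd tl)).val tr +
        rl (sT Ty.E a.b) (-δ) (p + δ) (upd a tl) i tr / lam
      else rl (sT Ty.E a.b) (-δ) (p + δ) (upd a tl) i tr := by
    rw [stE, rl, hsT]
    simp [posn, subP]
  rw [hR2, htl]
  by_cases hi : i = p - δ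
  · subst hi
    simp [h1]
  · by_cases hi2 : i = p + δ
    · subst hi2
      simp [h1.symm, ho _ _ h1.symm]
    · simp [hi, hi2, ho _ _ hi]

theorem X08q_E (cc : Clamp (5/4)) (cx : Clamp (mm + 1/2)) (b : Bool)
    (l : List Cell) (δ p : Fin 3)
    (hδ : δ ≠ 0) (r : Bool) (w : Zs) (hR : ∀ k, k ≠ 0 → |reg w k| ≤ 1/16) (hw : Wt b w = 1)
    (hz : stk w = rl Ty.E δ p l) (hD : Dle l) :
    stk (cm cc cx b (p - δ) (p + δ) (if r then 1 else 0) w) =
      rl Ty.F δ (p + δ) (stE r l) := by
  cases l with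
  | nil =>
    rw [← X08q_stEnil]
    refine X08q_E1 cc cx b zc [] δ p hδ r w hR hw ?_ ?_
    · rw [hz, rl_nil]
    · intro a ha k
      rw [List.mem_singleton] at ha
      subst ha
      exact X07q_zc k
  | cons a tl => exact X08q_E1 cc cx b a tl δ p hδ r w hR hw hz hD

theorem X08q_cm_congr (cc : Clamp (5/4)) (cx : Clamp (mm + 1/2)) (b : Bool) (s d : Fin 3)
    (r : ℝ) (w w' : Zs) (h : X08_R s d w w') :
    X08_R s d (cm cc cx b s d r w) (cm cc cx b s d r w') := by
  have hM0 : X08_R s d (M0 cc cx s d w) (M0 cc cx s d w') := by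
    refine ⟨h.1, ?_, ?_⟩
    · funext tr
      simp only [M0, X08_stk_mkz, h.2.1]
    · funext tr
      simp only [M0, X08_stk_mkz, h.2.2]
  have h1 : ∀ u u' : Zs, X08_R s d u u' → f1 s d u = f1 s d u' := by
    intro u u' hu
    simp only [f1, hu.2.1, hu.2.2]
  have h2 : ∀ u u' : Zs, X08_R s d u u' → f2 d u = f2 d u' := by
    intro u u' hu
    simp only [f2, hu.2.2, hu.1]
  have h3 : ∀ u u' : Zs, X08_R s d u u' → f3 b s d u = f3 b s d u' := by
    intro u u' hu
    simp only [f3, X08_Wt hu.1, hu.1]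
  have h4 : ∀ u u' : Zs, X08_R s d u u' → X08_R s d (M4 b s d u) (M4 b s d u') := by
    intro u u' hu
    refine ⟨hu.1, ?_, ?_⟩
    · funext tr
      simp only [M4, X08_stk_mkz, hu.2.1, X08_Wt hu.1]
    · funext tr
      simp only [M4, X08_stk_mkz, hu.2.2, X08_Wt hu.1]
  have h5 : ∀ u u' : Zs, X08_R s d u u' → f5 b d r u = f5 b d r u' := by
    intro u u' hu
    simp only [f5, pushed, X08_Wt hu.1, hu.1]
  have h6 : ∀ u u' : Zs, X08_R s d u u' → X08_R s d (M6 u) (M6 u') := by
    intro u u' hu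
    refine ⟨?_, ?_, ?_⟩
    · simp only [M6, X08_reg_mkz, hu.1]
    · simp only [M6, X08_stk_mkz, hu.2.1]
    · simp only [M6, X08_stk_mkz, hu.2.2]
  have k1 := X08_R_add hM0 (h1 _ _ hM0)
  have k2 := X08_R_add k1 (h2 _ _ k1)
  have k3 := X08_R_add k2 (h3 _ _ k2)
  have k4 := h4 _ _ k3
  have k5 := X08_R_add k4 (h5 _ _ k4)
  exact h6 _ _ k5

theorem X08q_bd {ty : Ty} {δ p : Fin 3} {l : List Cell} (hD : Dle l) {w : Zs}
    (hz : stk w = rl ty δ p l) (i : Fin 3) (tr : Fin 5) : |stk w i tr| ≤ 2 ^ 32 := by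
  have h := rl_range l hD ty δ p i tr
  rw [hz, abs_of_nonneg h.1]
  refine h.2.1.trans ?_
  norm_num [mm]

theorem X08q_Fstep (cc : Clamp (5/4)) (cx : Clamp (mm + 1/2)) (b : Bool) (a : Cell)
    (tl tl' : List Cell) (δ p s d : Fin 3) (hδ : δ ≠ 0)
    (hsd : (s = p - δ ∧ d = p + δ) ∨ (s = p + δ ∧ d = p - δ)) (w : Zs)
    (hz : stk w = rl Ty.F δ p (a :: tl)) (hD : Dle (a :: tl))
    (hsub : ∀ w' : Zs, reg w' = reg w → stk w' = rl (sT Ty.F a.b) (-δ) p tl →
      stk (cm cc cx b s d 0 w') = rl (sT Ty.F a.b).other (-δ) (p - δ) tl') :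
    stk (cm cc cx b s d 0 w) = rl Ty.E δ (p + δ) (a :: tl') := by
  obtain ⟨h1, h2, h3, h4⟩ := X08_f1 p δ hδ
  obtain ⟨g1, g2, g3, g4⟩ := X08_f2 p δ
  have hDt : Dle tl := fun c hc => hD c (List.mem_cons_of_mem _ hc)
  have hne : s ≠ d ∧ s ≠ p ∧ d ≠ p := by
    rcases hsd with ⟨rfl, rfl⟩ | ⟨rfl, rfl⟩
    · exact ⟨h1, h2, h3⟩
    · exact ⟨h1.symm, h3, h2⟩
  have hcov : ∀ i : Fin 3, i = p ∨ i = s ∨ i = d := by
    intro i
    rcases hsd with ⟨rfl, rfl⟩ | ⟨rfl, rfl⟩
    · exact X08_f3 i p δ hδ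
    · rcases X08_f3 i p δ hδ with h | h | h
      · exact Or.inl h
      · exact Or.inr (Or.inr h)
      · exact Or.inr (Or.inl h)
  set Y : Stk := rl (sT Ty.F a.b) (-δ) p tl with hY
  have hp : ∀ tr, stk w p tr = a.val tr + Y p tr / lam := by
    intro tr; rw [hz]; simp [rl, posn, subP, hY]
  have ho : ∀ i tr, i ≠ p → stk w i tr = Y i tr := by
    intro i tr hi; rw [hz]; simp [rl, posn, subP, hi, hY]
  set w' : Zs := mkz Y (reg w) with hw'
  have hR : X08_R s d w w' := by
    refine ⟨rfl, ?_, ?_⟩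
    · funext tr
      rw [ho s tr hne.2.1]
      rfl
    · funext tr
      rw [ho d tr hne.2.2]
      rfl
  have hc := X08q_cm_congr cc cx b s d 0 w w' hR
  have hres := hsub w' rfl rfl
  have hun := (cm_bound cc cx b s d hne.1 0 w (X08q_bd hD hz)).2
  have hun' := (cm_bound cc cx b s d hne.1 0 w' (X08q_bd hDt (show stk w' = rl (sT Ty.F a.b) (-δ) p tl from rfl))).2
  have hsT : sT Ty.E a.b = (sT Ty.F a.b).other := by
    cases a.b <;> rfl
  funext i tr
  have hR2 : rl Ty.E δ (p + δ) (a :: tl') i tr =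
      if i = p then a.val tr + rl (sT Ty.F a.b).other (-δ) (p - δ) tl' i tr / lam
      else rl (sT Ty.F a.b).other (-δ) (p - δ) tl' i tr := by
    rw [rl, hsT]
    simp [posn, subP, g1, g2]
  rw [hR2, ← hres]
  by_cases hi : i = p
  · subst hi
    rw [if_pos rfl, hun i tr hne.2.1.symm hne.2.2.symm, hun' i tr hne.2.1.symm hne.2.2.symm, hp]
    rfl
  · rw [if_neg hi]
    rcases hcov i with h | h | h
    · exact absurd h hi
    · rw [h, hc.2.1]
    · rw [h, hc.2.2]

theorem X08q_F (cc : Clamp (5/4)) (cx : Clamp (mm + 1/2)) (b : Bool) (l : List Cell) :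
    ∀ (δ p : Fin 3), δ ≠ 0 → ∀ (w : Zs), (∀ k, k ≠ 0 → |reg w k| ≤ 1/16) → Wt b w = 1 →
    stk w = rl Ty.F δ p l → Dle l → Val Ty.F l →
    stk (cm cc cx b (if (hd l).c then p - δ else p + δ) (if (hd l).c then p + δ else p - δ) 0 w) =
      rl Ty.E δ (p + δ) (stF l) := by
  induction l with
  | nil =>
    intro δ p hδ w hR hw hz _ _
    obtain ⟨h1, h2, h3, h4⟩ := X08_f1 p δ hδ
    obtain ⟨g1, g2, g3, g4⟩ := X08_f2 p δ
    have hc : (hd []).c = false := rfl
    rw [hc, stF]
    simp only [Bool.false_eq_true, if_false]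
    have hDz : Dle [zc] := by
      intro a ha k
      rw [List.mem_singleton] at ha
      subst ha
      exact X07q_zc k
    refine X08q_Fstep cc cx b zc [] (stE false []) δ p (p + δ) (p - δ) hδ (Or.inr ⟨rfl, rfl⟩) w
      (by rw [hz, rl_nil]) hDz ?_
    intro w' hreg hst
    have := X08q_E cc cx b [] (-δ) p h4 false w' (fun k hk => by rw [hreg]; exact hR k hk)
      (by rw [X08_Wt hreg, hw]) hst (fun a ha => by simp at ha)
    rw [g3, g4] at this
    simp only [Bool.false_eq_true, if_false] at this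
    exact this
  | cons a tl ih =>
    intro δ p hδ w hR hw hz hD hv
    obtain ⟨h1, h2, h3, h4⟩ := X08_f1 p δ hδ
    obtain ⟨g1, g2, g3, g4⟩ := X08_f2 p δ
    have hDt : Dle tl := fun c hc => hD c (List.mem_cons_of_mem _ hc)
    have hac := hv.1 rfl
    have hvt := hv.2
    have hhd : hd (a :: tl) = a := rfl
    rw [hhd, stF]
    cases hb : a.b with
    | false =>
      rw [hb] at hac hvt
      simp only [Bool.false_and] at hac
      rw [hac]
      simp only [Bool.false_eq_true, if_false]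
      refine X08q_Fstep cc cx b a tl (stE false tl) δ p (p + δ) (p - δ) hδ (Or.inr ⟨rfl, rfl⟩) w
        hz hD ?_
      intro w' hreg hst
      rw [hb] at hst ⊢
      have := X08q_E cc cx b tl (-δ) p h4 false w' (fun k hk => by rw [hreg]; exact hR k hk)
        (by rw [X08_Wt hreg, hw]) hst hDt
      rw [g3, g4] at this
      simp only [Bool.false_eq_true, if_false] at this
      exact this
    | true =>
      rw [hb] at hac hvt
      simp only [Bool.true_and] at hac
      simp only [if_true]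
      refine X08q_Fstep cc cx b a tl (stF tl) δ p _ _ hδ ?_ w hz hD ?_
      · cases a.c
        · right; simp
        · left; simp
      · intro w' hreg hst
        rw [hb] at hst ⊢
        have := ih (-δ) p h4 w' (fun k hk => by rw [hreg]; exact hR k hk)
          (by rw [X08_Wt hreg, hw]) hst hDt hvt
        rw [g3, g4] at this
        rw [hac]
        cases hc : (hd tl).c
        · rw [hc] at this
          simp only [Bool.false_eq_true, if_false] at this
          simp only [Bool.not_false, if_true]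
          exact this
        · rw [hc] at this
          simp only [if_true] at this
          simp only [Bool.not_true, Bool.false_eq_true, if_false]
          exact this

theorem X08q_M0 (cc : Clamp (5/4)) (cx : Clamp (mm + 1/2)) (s d : Fin 3) (w : Zs)
    {ty : Ty} {δ p : Fin 3} {l : List Cell} (hD : Dle l) (hz : stk w = rl ty δ p l) :
    stk (M0 cc cx s d w) = rl ty δ p l := by
  rw [← hz]
  funext i tr
  have h := rl_range l hD ty δ p i tr
  rw [← hz] at h
  simp only [M0, X08_stk_mkz]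
  split_ifs with h1 h2
  · refine cc.fix 1 _ (by linarith [h.1]) ?_
    have h3 : tr = 0 ∨ tr = 1 := by
      rcases tr with ⟨n, hn⟩
      simp only at h2
      interval_cases n
      · left; rfl
      · right; rfl
    have := h.2.2 h3
    linarith
  · refine cx.fix 1 _ (by linarith [h.1]) ?_
    have := h.2.1
    linarith
  · rfl

/-- TARGET -/
theorem tick_exact (cc : Clamp (5/4)) (cx : Clamp (mm + 1/2)) (ty : Ty) (p : Fin 3)
    (r : Bool) (l : List Cell) (hD : Dle l) (hv : Val ty l) (z : Zs)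
    (hR : ∀ k, |reg z k| ≤ 1/16) (hz : stk z = rl ty 1 p l) :
    stk (tick cc cx ty p (if r then 1 else 0) z) = rl ty.other 1 (p + 1) (st ty r l) := by
  have h10 : (1 : Fin 3) ≠ 0 := by decide
  have hv' := (st_val ty r l hD hv).2
  set w1 : Zs := z + g0 ty p z with hw1
  have hs1 : stk w1 = rl ty 1 p l := by
    rw [← hz]
    funext i tr
    rw [hw1, X08_stk_add]
    simp [g0, X08_stk_mkz]
  have hr1 : ∀ k, k ≠ 0 → reg w1 k = reg z k := by
    intro k hk
    rw [hw1, X08_reg_add]
    simp [g0, X08_reg_mkz, hk]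
  have hr10 : reg w1 0 = reg z 0 + (if ty = Ty.E then 1 else Sc (stk z p 1)) := by
    rw [hw1, X08_reg_add]
    simp [g0, X08_reg_mkz]
  have hR1 : ∀ k, k ≠ 0 → |reg w1 k| ≤ 1/16 := fun k hk => by rw [hr1 k hk]; exact hR k
  have hz0 := abs_le.1 (hR 0)
  have hpm : p - 1 ≠ p + 1 := (X08_f1 p 1 h10).1
  have hN : stk (tick cc cx ty p (if r then 1 else 0) z) =
      stk (cm cc cx false (p + 1) (p - 1) 0
        (cm cc cx true (p - 1) (p + 1) (if ty = Ty.E then (if r then 1 else 0) else 0) w1)) := rfl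
  rw [hN]
  obtain ⟨hc0, hck⟩ := cm_reg cc cx true (p - 1) (p + 1) hpm
    (if ty = Ty.E then (if r then 1 else 0) else 0) w1 hR1
  set w2 : Zs := cm cc cx true (p - 1) (p + 1) (if ty = Ty.E then (if r then 1 else 0) else 0) w1
    with hw2
  -- case of weight one for the first move
  have case1 : Sc (reg w1 0) = 1 → stk w2 = rl ty.other 1 (p + 1) (st ty r l) →
      stk (cm cc cx false (p + 1) (p - 1) 0 w2) = rl ty.other 1 (p + 1) (st ty r l) := by
    intro h1 h2
    rw [cm_zero cc cx false (p + 1) (p - 1) hpm.symm 0 w2 (by simp [Wt, hc0, h1])]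
    exact X08q_M0 cc cx _ _ w2 hv' h2
  cases ty with
  | E =>
    have h1 : Sc (reg w1 0) = 1 := by
      apply X08_Sc1
      rw [hr10, if_pos rfl]
      linarith [hz0.1]
    refine case1 h1 ?_
    have := X08q_E cc cx true l 1 p h10 r w1 hR1 (by simp [Wt, h1]) hs1 hD
    rw [hw2, if_pos rfl]
    exact this
  | F =>
    have hFE : ¬ (Ty.F = Ty.E) := by decide
    rw [if_neg hFE] at hr10
    have hcv : stk z p 1 = vb (hd l).c + rl Ty.F 1 p l p 1 - vb (hd l).c := by
      rw [hz]; ring
    have hrd : vb (hd l).c ≤ stk z p 1 ∧ stk z p 1 ≤ vb (hd l).c + 1 / 16 := by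
      rw [hz]
      cases l with
      | nil => simp [rl, hd, zc, vb, tl0]
      | cons a tl =>
        have hDt : Dle tl := fun c hc => hD c (List.mem_cons_of_mem _ hc)
        have h5 := rl_range tl hDt (sT Ty.F a.b) (-1) (subP 1 Ty.F p) p 1
        have e1 : rl Ty.F 1 p (a :: tl) p 1 =
            vb a.c + rl (sT Ty.F a.b) (-1) (subP 1 Ty.F p) tl p 1 / lam := by
          simp [rl, posn, Cell.val]
        rw [e1]
        have h6 := X08_small h5.2.1
        have h7 := div_nonneg h5.1 X08_lam.le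
        exact ⟨by simpa [hd] using h7, by simpa [hd] using h6⟩
    have hstF : st Ty.F r l = stF l := rfl
    cases hc : (hd l).c with
    | true =>
      rw [hc] at hrd
      have h0 : Sc (stk z p 1) = 1 := by
        apply X08_Sc1
        have := hrd.1
        simp only [vb, if_true] at this
        linarith
      have h1 : Sc (reg w1 0) = 1 := by
        apply X08_Sc1
        rw [hr10, h0]
        linarith [hz0.1]
      refine case1 h1 ?_
      have := X08q_F cc cx true l 1 p h10 w1 hR1 (by simp [Wt, h1]) hs1 hD hv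
      rw [hc] at this
      rw [hw2, if_neg hFE]
      simp only [if_true] at this
      exact this
    | false =>
      rw [hc] at hrd
      have h0 : Sc (stk z p 1) = 0 := by
        apply X08_Sc0
        have := hrd.2
        simp only [vb] at this
        norm_num at this
        linarith
      have h1 : Sc (reg w1 0) = 0 := by
        apply X08_Sc0
        rw [hr10, h0]
        linarith [hz0.2]
      have hs2 : stk w2 = rl Ty.F 1 p l := by
        rw [hw2, cm_zero cc cx true (p - 1) (p + 1) hpm _ w1 (by simp [Wt, h1])]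
        exact X08q_M0 cc cx _ _ w1 hD hs1
      have := X08q_F cc cx false l 1 p h10 w2 (fun k hk => (hck k hk).trans (by norm_num))
        (by simp [Wt, hc0, h1]) hs2 hD hv
      rw [hc] at this
      simp only [Bool.false_eq_true, if_false] at this
      exact this

end Pool.Agent.Y203.QC
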