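import Mathlib
import Pool.Agent.Y350.QC.XTickE

/-!
Project QC (owner helper203), job QC-XTICKE (2): contraction of the registers at exact states.
-/

set_option autoImplicit false

open Set Filter Topology

namespace Pool.Agent.Y203.QC

open Pool.Agent.Aub (mm lam Stk dt stp Sc S1 S2 Qx gT gt cT ct hC hX Dg Ty stg rho mu posn peel cE cF
  DD rb subTy subP subC sub broken Clamp Ix Zs stk reg mkz Wt f0 f1 f4 f6 g0 g1 M0 M4 M6 N1 tyj pj
  Cell sT Dle vb tyn X08_f1 X08_small X08_lam X08_stk_add X08_reg_add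
  X08_stk_mkz X08_reg_mkz X08_Wt X08_Sc1 X08_Sc0 X02_reg_add X02_stk_add X02_reg_mkz X02_stk_mkz)
open Pool.Agent.Aub (X06_mm X06_stp0 X06_stp1 X06_S1 X06_S2 X06_Qx X06_Sc X06_Sc01 X06_cb X06_ct
  X06_cT X06_gT X06_v4 X06_v5 X06_v6 X06_v7 X06_v8 X06_v9)

attribute [local irreducible] S1 S2 Qx

/-- all coordinates are a digit plus something in `[0, 1/16]` -/
def Exs (S : Stk) : Prop :=
  ∀ i tr, ∃ n : ℕ, n ≤ mm ∧ (n : ℝ) ≤ S i tr ∧ S i tr ≤ n + 1/16 ∧ (tr = 0 ∨ tr = 1 → n ≤ 1)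

theorem X09_nil (tr : Fin 5) : ∃ n : ℕ, n ≤ mm ∧ (n : ℝ) ≤ tl0 tr ∧ tl0 tr ≤ n + 1/16 ∧
    (tr = 0 ∨ tr = 1 → n ≤ 1) := by
  have h := X08q_tl0 tr
  have hz : ∀ m : ℕ, zc.val tr = (m : ℝ) → m ≤ 1 → ∃ n : ℕ, n ≤ mm ∧ (n : ℝ) ≤ tl0 tr ∧
      tl0 tr ≤ n + 1/16 ∧ (tr = 0 ∨ tr = 1 → n ≤ 1) := by
    intro m hm h1
    refine ⟨m, h1.trans (by norm_num [mm]), ?_, ?_, fun _ => h1⟩
    · rw [← hm]; linarith [h.1]
    · rw [← hm]; linarith [h.2]
  fin_cases tr
  · exact hz 0 (by simp [Cell.val, zc, vb]) (by norm_num)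
  · exact hz 0 (by simp [Cell.val, zc, vb]) (by norm_num)
  · exact hz 1 (by simp [Cell.val, zc]) (by norm_num)
  · exact hz 1 (by simp [Cell.val, zc]) (by norm_num)
  · exact hz 1 (by simp [Cell.val, zc]) (by norm_num)

theorem X09_cell (a : Cell) (ha : ∀ k, a.D k ≤ mm) (tr : Fin 5) :
    ∃ n : ℕ, n ≤ mm ∧ a.val tr = (n : ℝ) ∧ (tr = 0 ∨ tr = 1 → n ≤ 1) := by
  have hb : ∀ β : Bool, ∃ n : ℕ, n ≤ 1 ∧ vb β = (n : ℝ) := by
    intro β
    cases β
    · exact ⟨0, by norm_num, by simp [vb]⟩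
    · exact ⟨1, le_rfl, by simp [vb]⟩
  have hmm : 1 ≤ mm := by norm_num [mm]
  fin_cases tr
  · obtain ⟨n, h1, h2⟩ := hb a.b
    exact ⟨n, h1.trans hmm, h2, fun _ => h1⟩
  · obtain ⟨n, h1, h2⟩ := hb a.c
    exact ⟨n, h1.trans hmm, h2, fun _ => h1⟩
  · refine ⟨a.D 0, ha 0, rfl, ?_⟩
    rintro (h | h) <;> exact absurd h (by decide)
  · refine ⟨a.D 1, ha 1, rfl, ?_⟩
    rintro (h | h) <;> exact absurd h (by decide)
  · refine ⟨a.D 2, ha 2, rfl, ?_⟩
    rintro (h | h) <;> exact absurd h (by decide)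

theorem X09_rl (l : List Cell) (hD : Dle l) : ∀ (ty : Ty) (δ p : Fin 3), Exs (rl ty δ p l) := by
  induction l with
  | nil =>
    intro ty δ p i tr
    have h0 : rl ty δ p [] i tr = tl0 tr := by rw [rl]
    rw [h0]
    exact X09_nil tr
  | cons a tl ih =>
    intro ty δ p i tr
    have ha : ∀ k, a.D k ≤ mm := hD a List.mem_cons_self
    have htl : Dle tl := fun c hc => hD c (List.mem_cons_of_mem _ hc)
    have h1 : rl ty δ p (a :: tl) i tr = if i = posn δ ty p then a.val tr +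
        rl (sT ty a.b) (-δ) (subP δ ty p) tl i tr / lam
        else rl (sT ty a.b) (-δ) (subP δ ty p) tl i tr := by
      rw [rl]
    rw [h1]
    by_cases hi : i = posn δ ty p
    · rw [if_pos hi]
      obtain ⟨n, h2, h3, h4⟩ := X09_cell a ha tr
      have hr := rl_range tl htl (sT ty a.b) (-δ) (subP δ ty p) i tr
      have h5 := X08_small hr.2.1
      have h6 := div_nonneg hr.1 X08_lam.le
      exact ⟨n, h2, by rw [h3]; linarith, by rw [h3]; linarith, h4⟩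
    · rw [if_neg hi]
      exact ih htl _ _ _ i tr

theorem X09_M0 (cc : Clamp (5/4)) (cx : Clamp (mm + 1/2)) (s d : Fin 3) (w : Zs)
    (hE : Exs (stk w)) : M0 cc cx s d w = w := by
  have key : ∀ i tr, stk (M0 cc cx s d w) i tr = stk w i tr := by
    intro i tr
    obtain ⟨n, h1, h2, h3, h4⟩ := hE i tr
    have hn : (n : ℝ) ≤ mm := by exact_mod_cast h1
    have hn0 : (0 : ℝ) ≤ n := Nat.cast_nonneg n
    simp only [M0, X08_stk_mkz]
    split_ifs with h5 h6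
    · refine cc.fix 1 _ (by linarith) ?_
      have h7 : tr = 0 ∨ tr = 1 := by
        rcases tr with ⟨m, hm⟩
        simp only at h6
        interval_cases m
        · left; rfl
        · right; rfl
      have h8 : (n : ℝ) ≤ 1 := by exact_mod_cast h4 h7
      linarith
    · refine cx.fix 1 _ (by linarith) ?_
      linarith
    · rfl
  funext q
  rcases q with ⟨i, tr⟩ | k
  · exact key i tr
  · rfl

/-- two quantised values -/
def X09_q (t : ℝ) : Prop := t = 0 ∨ t = 1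

theorem X09_cb (a b : ℕ) : X09_q ((X06_cb a b : ℕ) : ℝ) := by
  unfold X06_cb X09_q
  split_ifs <;> simp

theorem X09_bb (a b : ℕ) : X09_q ((Y06_bb a b : ℕ) : ℝ) := by
  unfold Y06_bb X09_q
  split_ifs <;> simp

theorem X09_Sg {q t : ℝ} (hq : q = -1 ∨ q = 0 ∨ q = 1) (h : |t - q| ≤ 1/8) : Sg t = q := by
  have h' := abs_le.1 h
  unfold Sg
  rcases hq with rfl | rfl | rfl
  · rw [X08_Sc0 (t := t) (by linarith), X08_Sc1 (t := -t) (by linarith)]
    norm_num
  · rw [X08_Sc0 (t := t) (by linarith), X08_Sc0 (t := -t) (by linarith)]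
    norm_num
  · rw [X08_Sc1 (t := t) (by linarith), X08_Sc0 (t := -t) (by linarith)]
    norm_num

/-- the readings after the first two slots do not depend on the noise in the registers -/
theorem X09_read (s d : Fin 3) (S : Stk) (hE : Exs S) :
    ∃ c : Fin 12 → ℝ, (c 0 = 0) ∧
      ∀ u : Zs, stk u = S → (∀ k, k ≠ 0 → |reg u k| ≤ 1/16) →
        (∀ k, reg ((u + f1 s d u) + f2 d (u + f1 s d u)) k = reg u k + c k) ∧
        (∀ k : Fin 12, k = 1 ∨ k = 2 ∨ k = 3 →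
          Sc (reg ((u + f1 s d u) + f2 d (u + f1 s d u)) k) = c k) ∧
        (∀ k : Fin 12, 4 ≤ k → k ≤ 9 →
          Qx (reg ((u + f1 s d u) + f2 d (u + f1 s d u)) k) = c k) ∧
        (∀ k : Fin 12, 10 ≤ k →
          Sg (reg ((u + f1 s d u) + f2 d (u + f1 s d u)) k) = c k) := by
  obtain ⟨a0, h01, h02, h03, h04⟩ := hE s 0
  obtain ⟨a1, h11, h12, h13, h14⟩ := hE s 1
  obtain ⟨e1, e11, e12, e13, e14⟩ := hE d 1
  obtain ⟨a2, h21, h22, h23, -⟩ := hE s 2
  obtain ⟨a3, h31, h32, h33, -⟩ := hE s 3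
  obtain ⟨a4, h41, h42, h43, -⟩ := hE s 4
  obtain ⟨e0, e01, e02, e03, e04⟩ := hE d 0
  obtain ⟨e2, e21, e22, e23, -⟩ := hE d 2
  have ha0 := h04 (Or.inl rfl)
  have ha1 := h14 (Or.inr rfl)
  have he1 := e14 (Or.inr rfl)
  have he0 := e04 (Or.inl rfl)
  have hmm := X06_mm
  have cS0 : Sc (S s 0) = a0 := X06_Sc01 ha0 (by rw [abs_le]; constructor <;> linarith)
  have cS1 : Sc (S s 1) = a1 := X06_Sc01 ha1 (by rw [abs_le]; constructor <;> linarith)
  have cS2 : Sc (S d 1) = e1 := X06_Sc01 he1 (by rw [abs_le]; constructor <;> linarith)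
  have cA2 : S1 (S s 2) = a2 ∧ S2 (S s 2) = a2 :=
    ⟨X06_S1 h21 (by linarith) (by linarith), X06_S2 h21 (by linarith) (by linarith)⟩
  have cA3 : S1 (S s 3) = a3 ∧ S2 (S s 3) = a3 :=
    ⟨X06_S1 h31 (by linarith) (by linarith), X06_S2 h31 (by linarith) (by linarith)⟩
  have cA4 : S1 (S s 4) = a4 ∧ S2 (S s 4) = a4 :=
    ⟨X06_S1 h41 (by linarith) (by linarith), X06_S2 h41 (by linarith) (by linarith)⟩
  have hg : gT (S d 0) = 1 ∧ gt (S d 0) = 1 := by
    rcases Nat.le_one_iff_eq_zero_or_eq_one.1 he0 with h | h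
    · subst h
      exact X06_gT (β := false) (by simpa [vb] using e02) (by simpa [vb] using e03)
    · subst h
      have e02' : (1 : ℝ) ≤ S d 0 := by simpa using e02
      have e03' : S d 0 ≤ 1 + 1 / 16 := by simpa using e03
      refine X06_gT (β := true) ?_ ?_
      · simp only [vb, if_true]; linarith
      · simp only [vb, if_true]; linarith
  have hcT := X06_cT (a := a4) h41 e21 e22 e23
  have hct := X06_ct (a := a4) h41 e21 e22 e23
  have hbT := Y06_bT (a := a4) (b := e2) e22 e23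
  have hbt := Y06_bt (a := a4) (b := e2) e22 e23
  obtain ⟨q, hq⟩ : ∃ q : ℝ, q = (1 - (a0 : ℝ)) * ((X06_cb a4 e2 : ℕ) - (Y06_bb a4 e2 : ℕ)) :=
    ⟨_, rfl⟩
  have hq3 : q = -1 ∨ q = 0 ∨ q = 1 := by
    rw [hq]
    rcases Nat.le_one_iff_eq_zero_or_eq_one.1 ha0 with h | h
    · subst h
      rcases X09_cb a4 e2 with h1 | h1 <;> rcases X09_bb a4 e2 with h2 | h2 <;>
        rw [h1, h2] <;> norm_num
    · subst h
      right; left
      simp
  obtain ⟨c, hc⟩ : ∃ c : Fin 12 → ℝ, c = ![0, (a0 : ℝ), a1, e1, a2, a3, a4, a2, a3, a4, q, q] :=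
    ⟨_, rfl⟩
  have c0 : c 0 = 0 := by rw [hc]; rfl
  have c1 : c 1 = a0 := by rw [hc]; rfl
  have c2 : c 2 = a1 := by rw [hc]; rfl
  have c3 : c 3 = e1 := by rw [hc]; rfl
  have c4 : c 4 = a2 := by rw [hc]; rfl
  have c5 : c 5 = a3 := by rw [hc]; rfl
  have c6 : c 6 = a4 := by rw [hc]; rfl
  have c7 : c 7 = a2 := by rw [hc]; rfl
  have c8 : c 8 = a3 := by rw [hc]; rfl
  have c9 : c 9 = a4 := by rw [hc]; rfl
  have c10 : c 10 = q := by rw [hc]; rfl
  have c11 : c 11 = q := by rw [hc]; rfl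
  obtain ⟨c', hc'⟩ : ∃ c' : Fin 12 → ℝ, c' = ![0, (a0 : ℝ), a1, e1, a2, a3, a4, a2, a3, a4, 0, 0] :=
    ⟨_, rfl⟩
  have c1' : c' 1 = a0 := by rw [hc']; rfl
  have c6' : c' 6 = a4 := by rw [hc']; rfl
  have hcc : c = c' + ![0, 0, 0, 0, 0, 0, 0, 0, 0, 0, q, q] := by
    rw [hc, hc']
    simp
  refine ⟨c, c0, ?_⟩
  intro u hu hR
  obtain ⟨z1, hz1⟩ : ∃ z1, z1 = u + f1 s d u := ⟨_, rfl⟩
  rw [← hz1]
  have s1 : stk z1 = S := by
    rw [hz1, ← hu]
    funext i tr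
    rw [X02_stk_add]
    simp [f1, X02_stk_mkz]
  have r1 : ∀ k, reg z1 k = reg u k + c' k := by
    intro k
    rw [hz1, X02_reg_add, f1, X02_reg_mkz, hu, cS0, cS1, cS2, cA2.1, cA2.2, cA3.1, cA3.2, cA4.1,
      cA4.2, hc']
  have q1 : Sc (reg z1 1) = a0 := by
    refine X06_Sc01 ha0 ?_
    rw [r1 1, c1', add_sub_cancel_right]
    exact (hR 1 (by decide)).trans (by norm_num)
  have q6 : Qx (reg z1 6) = a4 := by
    refine X06_Qx h41 ?_
    rw [r1 6, c6', add_sub_cancel_right]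
    exact hR 6 (by decide)
  have hf2 : f2 d z1 = mkz 0 ![0, 0, 0, 0, 0, 0, 0, 0, 0, 0, q, q] := by
    rw [f2, q1, q6, s1, hg.1, hg.2, hcT, hct, hbT, hbt, one_mul, one_mul, ← hq]
  have r2 : ∀ k, reg (z1 + f2 d z1) k = reg u k + c k := by
    intro k
    rw [X02_reg_add, r1 k, hf2, X02_reg_mkz, add_assoc, hcc]
    rfl
  clear hf2 hc hc' hcc r1 hcT hct hbT hbt hq
  obtain ⟨z2, hz2⟩ : ∃ z2, z2 = z1 + f2 d z1 := ⟨_, rfl⟩
  rw [← hz2] at r2 ⊢
  refine ⟨r2, ?_, ?_, ?_⟩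
  · have hx : ∀ (k : Fin 12) (n : ℕ), k ≠ 0 → n ≤ 1 → Sc (reg u k + n) = n := by
      intro k n hk hn
      refine X06_Sc01 hn ?_
      rw [add_sub_cancel_right]
      exact (hR k hk).trans (by norm_num)
    rintro k (hk | hk | hk)
    · rw [hk, r2, c1]
      exact hx 1 a0 (by decide) ha0
    · rw [hk, r2, c2]
      exact hx 2 a1 (by decide) ha1
    · rw [hk, r2, c3]
      exact hx 3 e1 (by decide) he1
  · intro k hk1 hk2
    have h4 : k = 4 ∨ k = 5 ∨ k = 6 ∨ k = 7 ∨ k = 8 ∨ k = 9 := by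
      revert k; decide
    have hx : ∀ (k : Fin 12) (n : ℕ), k ≠ 0 → n ≤ mm → Qx (reg u k + n) = n := by
      intro k n hk hn
      refine X06_Qx hn ?_
      rw [add_sub_cancel_right]
      exact hR k hk
    rcases h4 with hk | hk | hk | hk | hk | hk
    · rw [hk, r2, c4]
      exact hx 4 a2 (by decide) h21
    · rw [hk, r2, c5]
      exact hx 5 a3 (by decide) h31
    · rw [hk, r2, c6]
      exact hx 6 a4 (by decide) h41
    · rw [hk, r2, c7]
      exact hx 7 a2 (by decide) h21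
    · rw [hk, r2, c8]
      exact hx 8 a3 (by decide) h31
    · rw [hk, r2, c9]
      exact hx 9 a4 (by decide) h41
  · intro k hk1
    have h4 : k = 10 ∨ k = 11 := by
      revert k; decide
    have hx : ∀ (k : Fin 12), k ≠ 0 → Sg (reg u k + q) = q := by
      intro k hk
      refine X09_Sg hq3 ?_
      rw [add_sub_cancel_right]
      exact (hR k hk).trans (by norm_num)
    rcases h4 with hk | hk
    · rw [hk, r2, c10]
      exact hx 10 (by decide)
    · rw [hk, r2, c11]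
      exact hx 11 (by decide)

/-- two states with the same exact stacks and the same weight -/
theorem X09_cm (cc : Clamp (5/4)) (cx : Clamp (mm + 1/2)) (b : Bool) (s d : Fin 3) (r : ℝ)
    (u v : Zs) (hst : stk u = stk v) (hE : Exs (stk u)) (hu : ∀ k, k ≠ 0 → |reg u k| ≤ 1/16)
    (hv : ∀ k, k ≠ 0 → |reg v k| ≤ 1/16) (hW : Wt b u = Wt b v) :
    stk (cm cc cx b s d r u) = stk (cm cc cx b s d r v) ∧
    ∀ k, k ≠ 0 → reg (cm cc cx b s d r u) k - reg (cm cc cx b s d r v) k =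
      Real.exp (-16) * (reg u k - reg v k) := by
  obtain ⟨c, hc0, hc⟩ := X09_read s d (stk u) hE
  obtain ⟨cu1, cu2, cu3, cu4⟩ := hc u rfl hu
  obtain ⟨cv1, cv2, cv3, cv4⟩ := hc v hst.symm hv
  have hEv : Exs (stk v) := by rw [← hst]; exact hE
  obtain ⟨z2, hz2⟩ : ∃ z2, z2 = (u + f1 s d u) + f2 d (u + f1 s d u) := ⟨_, rfl⟩
  obtain ⟨y2, hy2⟩ : ∃ y2, y2 = (v + f1 s d v) + f2 d (v + f1 s d v) := ⟨_, rfl⟩
  rw [← hz2] at cu1 cu2 cu3 cu4
  rw [← hy2] at cv1 cv2 cv3 cv4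
  have s2 : stk z2 = stk y2 := by
    rw [hz2, hy2]
    funext i tr
    rw [X02_stk_add, X02_stk_add, X02_stk_add, X02_stk_add, hst]
    simp [f1, f2, X02_stk_mkz]
  have w2 : Wt b z2 = Wt b y2 := by
    have e1 : Wt b z2 = Wt b u := Pool.Agent.Aub.X02_Wt_congr b z2 u (by rw [cu1, hc0, add_zero])
    have e2 : Wt b y2 = Wt b v := Pool.Agent.Aub.X02_Wt_congr b y2 v (by rw [cv1, hc0, add_zero])
    rw [e1, e2, hW]
  -- all readings agree
  have a1 : Sc (reg z2 1) = Sc (reg y2 1) := by rw [cu2 1 (by simp), cv2 1 (by simp)]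
  have a2 : Sc (reg z2 2) = Sc (reg y2 2) := by rw [cu2 2 (by simp), cv2 2 (by simp)]
  have a3 : Sc (reg z2 3) = Sc (reg y2 3) := by rw [cu2 3 (by simp), cv2 3 (by simp)]
  have a4 : Qx (reg z2 4) = Qx (reg y2 4) := by
    rw [cu3 4 (by decide) (by decide), cv3 4 (by decide) (by decide)]
  have a5 : Qx (reg z2 5) = Qx (reg y2 5) := by
    rw [cu3 5 (by decide) (by decide), cv3 5 (by decide) (by decide)]
  have a6 : Qx (reg z2 6) = Qx (reg y2 6) := by
    rw [cu3 6 (by decide) (by decide), cv3 6 (by decide) (by decide)]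
  have a7 : Qx (reg z2 7) = Qx (reg y2 7) := by
    rw [cu3 7 (by decide) (by decide), cv3 7 (by decide) (by decide)]
  have a8 : Qx (reg z2 8) = Qx (reg y2 8) := by
    rw [cu3 8 (by decide) (by decide), cv3 8 (by decide) (by decide)]
  have a9 : Qx (reg z2 9) = Qx (reg y2 9) := by
    rw [cu3 9 (by decide) (by decide), cv3 9 (by decide) (by decide)]
  have a10 : Sg (reg z2 10) = Sg (reg y2 10) := by
    rw [cu4 10 (by decide), cv4 10 (by decide)]
  have a11 : Sg (reg z2 11) = Sg (reg y2 11) := by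
    rw [cu4 11 (by decide), cv4 11 (by decide)]
  have hf3 : f3 b s d z2 = f3 b s d y2 := by
    simp only [f3, w2, a1, a2, a7, a8, a9, a10]
  obtain ⟨z3, hz3⟩ : ∃ z3, z3 = z2 + f3 b s d z2 := ⟨_, rfl⟩
  obtain ⟨y3, hy3⟩ : ∃ y3, y3 = y2 + f3 b s d y2 := ⟨_, rfl⟩
  have r3 : reg z3 = reg z2 := by
    rw [hz3, X08_reg_add]; simp [f3, X08_reg_mkz]
  have r3' : reg y3 = reg y2 := by
    rw [hy3, X08_reg_add]; simp [f3, X08_reg_mkz]
  have s3 : stk z3 = stk y3 := by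
    rw [hz3, hy3, hf3]
    funext i tr
    rw [X02_stk_add, X02_stk_add, s2]
  have w3 : Wt b z3 = Wt b y3 := by rw [X08_Wt (b := b) r3, X08_Wt (b := b) r3', w2]
  obtain ⟨z4, hz4⟩ : ∃ z4, z4 = M4 b s d z3 := ⟨_, rfl⟩
  obtain ⟨y4, hy4⟩ : ∃ y4, y4 = M4 b s d y3 := ⟨_, rfl⟩
  have r4 : reg z4 = reg z2 := by rw [hz4, M4, X08_reg_mkz, r3]
  have r4' : reg y4 = reg y2 := by rw [hy4, M4, X08_reg_mkz, r3']
  have s4 : stk z4 = stk y4 := by
    rw [hz4, hy4, M4, M4, X08_stk_mkz, X08_stk_mkz, w3, s3]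
  have w4 : Wt b z4 = Wt b y4 := by rw [X08_Wt (b := b) r4, X08_Wt (b := b) r4', w2]
  have hf5 : f5 b d r z4 = f5 b d r y4 := by
    simp only [f5, pushed, w4, r4, r4', a1, a3, a4, a5, a6, a11]
  obtain ⟨z5, hz5⟩ : ∃ z5, z5 = z4 + f5 b d r z4 := ⟨_, rfl⟩
  obtain ⟨y5, hy5⟩ : ∃ y5, y5 = y4 + f5 b d r y4 := ⟨_, rfl⟩
  have r5 : reg z5 = reg z2 := by
    rw [hz5, X08_reg_add, r4]; simp [f5, X08_reg_mkz]
  have r5' : reg y5 = reg y2 := by
    rw [hy5, X08_reg_add, r4']; simp [f5, X08_reg_mkz]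
  have s5 : stk z5 = stk y5 := by
    rw [hz5, hy5, hf5]
    funext i tr
    rw [X02_stk_add, X02_stk_add, s4]
  have hcu : cm cc cx b s d r u = M6 z5 := by
    have h0 := X09_M0 cc cx s d u hE
    rw [hz5, hz4, hz3, hz2]
    unfold cm
    simp only [h0]
  have hcv : cm cc cx b s d r v = M6 y5 := by
    have h0 := X09_M0 cc cx s d v hEv
    rw [hy5, hy4, hy3, hy2]
    unfold cm
    simp only [h0]
  constructor
  · rw [hcu, hcv, M6, M6, X08_stk_mkz, X08_stk_mkz, s5]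
  · intro k hk
    rw [hcu, hcv, M6, M6, X08_reg_mkz, X08_reg_mkz]
    simp only [hk, if_false]
    rw [r5, r5', cu1, cv1]
    ring

theorem X09_half {x y : ℝ} (h : x = Real.exp (-16) * y) : |x| ≤ 1/2 * |y| := by
  rw [h, abs_mul, abs_of_pos (Real.exp_pos _)]
  have := Pool.Agent.Aub.X02_exp
  have h2 := abs_nonneg y
  nlinarith

theorem X09_half2 {x y : ℝ} (h : x = Real.exp (-16) * (Real.exp (-16) * y)) :
    |x| ≤ 1/2 * |y| := by
  have h1 := X09_half h
  have h2 : |Real.exp (-16) * y| ≤ 1/2 * |y| := X09_half rfl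
  have h3 := abs_nonneg y
  linarith

/-- TARGET -/
theorem tick_contr (cc : Clamp (5/4)) (cx : Clamp (mm + 1/2)) (ty : Ty) (p : Fin 3)
    (l : List Cell) (hD : Dle l) (hv : Val ty l) (z w : Zs)
    (hR : ∀ k, |reg z k| ≤ 1/16) (hR' : ∀ k, |reg w k| ≤ 1/16)
    (hz : stk z = rl ty 1 p l) (hw : stk w = rl ty 1 p l) (k : Fin 12) :
    |reg (tick cc cx ty p 0 z) k - reg (tick cc cx ty p 0 w) k| ≤
      1/2 * |reg z k - reg w k| := by
  have hzE : Exs (stk z) := by rw [hz]; exact X09_rl l hD ty 1 p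
  have hexE : Exs (rl ty.other 1 (p + 1) (st ty false l)) :=
    X09_rl _ (st_val ty false l hD hv).2 _ _ _
  have hpm : p - 1 ≠ p + 1 := (X08_f1 p 1 (by decide)).1
  -- the first addition
  obtain ⟨t, ht⟩ : ∃ t : ℝ, t = (if ty = Ty.E then 1 else Sc (stk z p 1)) := ⟨_, rfl⟩
  have htw : (if ty = Ty.E then 1 else Sc (stk w p 1)) = t := by rw [ht, hz, hw]
  have ht01 : t = 0 ∨ t = 1 := by
    rw [ht]
    split_ifs with h
    · right; rfl
    · obtain ⟨n, h1, h2, h3, h4⟩ := hzE p 1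
      have h5 := h4 (Or.inr rfl)
      rw [X06_Sc01 h5 (by rw [abs_le]; constructor <;> linarith)]
      rcases Nat.le_one_iff_eq_zero_or_eq_one.1 h5 with rfl | rfl
      · left; simp
      · right; simp
  have ex : ∀ x : Zs, (if ty = Ty.E then 1 else Sc (stk x p 1)) = t →
      ∃ x1 : Zs, x1 = x + g0 ty p x ∧ stk x1 = stk x ∧ (∀ j, j ≠ 0 → reg x1 j = reg x j) ∧
        reg x1 0 = reg x 0 + t := by
    intro x hx
    refine ⟨_, rfl, ?_, ?_, ?_⟩
    · funext i tr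
      rw [X02_stk_add]
      simp [g0, X02_stk_mkz]
    · intro j hj
      rw [X02_reg_add]
      simp [g0, X02_reg_mkz, hj]
    · rw [X02_reg_add, ← hx]
      simp [g0, X02_reg_mkz]
  obtain ⟨z1, z1e, z1s, z1r, z1r0⟩ := ex z ht.symm
  obtain ⟨w1, w1e, w1s, w1r, w1r0⟩ := ex w htw
  have hz0 := abs_le.1 (hR 0)
  have hw0 := abs_le.1 (hR' 0)
  have hSc : Sc (reg z1 0) = t ∧ Sc (reg w1 0) = t := by
    rw [z1r0, w1r0]
    rcases ht01 with h | h
    · rw [h]
      exact ⟨X08_Sc0 (by linarith), X08_Sc0 (by linarith)⟩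
    · rw [h]
      exact ⟨X08_Sc1 (by linarith), X08_Sc1 (by linarith)⟩
  have hst1 : stk z1 = stk w1 := by rw [z1s, w1s, hz, hw]
  have hE1 : Exs (stk z1) := by rw [z1s]; exact hzE
  have hb1 : ∀ j, j ≠ 0 → |reg z1 j| ≤ 1/16 := fun j hj => by rw [z1r j hj]; exact hR j
  have hb1' : ∀ j, j ≠ 0 → |reg w1 j| ≤ 1/16 := fun j hj => by rw [w1r j hj]; exact hR' j
  have hW : ∀ b : Bool, Wt b z1 = Wt b w1 := by
    intro b
    unfold Wt
    rw [hSc.1, hSc.2]
  obtain ⟨z2, hz2⟩ : ∃ z2, z2 = cm cc cx true (p - 1) (p + 1) 0 z1 := ⟨_, rfl⟩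
  obtain ⟨w2, hw2⟩ : ∃ w2, w2 = cm cc cx true (p - 1) (p + 1) 0 w1 := ⟨_, rfl⟩
  obtain ⟨c1, c2⟩ := X09_cm cc cx true (p - 1) (p + 1) 0 z1 w1 hst1 hE1 hb1 hb1' (hW true)
  obtain ⟨d1, d2⟩ := cm_reg cc cx true (p - 1) (p + 1) hpm 0 z1 hb1
  obtain ⟨d1', d2'⟩ := cm_reg cc cx true (p - 1) (p + 1) hpm 0 w1 hb1'
  rw [← hz2] at c1 c2 d1 d2
  rw [← hw2] at c1 c2 d1' d2'
  have hb2 : ∀ j, j ≠ 0 → |reg z2 j| ≤ 1/16 := fun j hj => (d2 j hj).trans (by norm_num)
  have hb2' : ∀ j, j ≠ 0 → |reg w2 j| ≤ 1/16 := fun j hj => (d2' j hj).trans (by norm_num)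
  obtain ⟨z3, hz3⟩ : ∃ z3, z3 = cm cc cx false (p + 1) (p - 1) 0 z2 := ⟨_, rfl⟩
  obtain ⟨w3, hw3⟩ : ∃ w3, w3 = cm cc cx false (p + 1) (p - 1) 0 w2 := ⟨_, rfl⟩
  have hif : (if ty = Ty.E then (0 : ℝ) else 0) = 0 := by split_ifs <;> rfl
  have htz : tick cc cx ty p 0 z = N1 z3 := by
    rw [hz3, hz2, z1e]
    unfold tick
    rw [hif]
  have htw' : tick cc cx ty p 0 w = N1 w3 := by
    rw [hw3, hw2, w1e]
    unfold tick
    rw [hif]
  -- the stacks after the first move are exact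
  have hE2 : Exs (stk z2) := by
    rcases ht01 with h | h
    · have hW1 : Wt true z1 = 0 := by simp [Wt, hSc.1, h]
      rw [hz2, cm_zero cc cx true (p - 1) (p + 1) hpm 0 z1 hW1, X09_M0 cc cx _ _ z1 hE1]
      exact hE1
    · suffices hs2 : stk z2 = rl ty.other 1 (p + 1) (st ty false l) by
        rw [hs2]; exact hexE
      have hW1 : Wt true z1 = 1 := by simp [Wt, hSc.1, h]
      have hsz1 : stk z1 = rl ty 1 p l := by rw [z1s, hz]
      cases ty with
      | E =>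
        have := X08q_E cc cx true l 1 p (by decide) false z1 hb1 hW1 hsz1 hD
        simp only [Bool.false_eq_true, if_false] at this
        rw [hz2]
        exact this
      | F =>
        have hFE : ¬ (Ty.F = Ty.E) := by decide
        rw [if_neg hFE] at ht
        have hrd : vb (hd l).c ≤ stk z p 1 ∧ stk z p 1 ≤ vb (hd l).c + 1 / 16 := by
          rw [hz]
          cases l with
          | nil => simp [rl, hd, zc, vb, tl0]
          | cons a tl =>
            have hDt : Dle tl := fun c hc => hD c (List.mem_cons_of_mem _ hc)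
            have h5 := rl_range tl hDt (sT Ty.F a.b) (-1) (subP 1 Ty.F p) p 1
            have e1 : rl Ty.F 1 p (a :: tl) p 1 =
                vb a.c + rl (sT Ty.F a.b) (-1) (subP 1 Ty.F p) tl p 1 / lam := by
              simp [rl, posn, Cell.val]
            rw [e1]
            have h6 := X08_small h5.2.1
            have h7 := div_nonneg h5.1 X08_lam.le
            exact ⟨by simpa [hd] using h7, by simpa [hd] using h6⟩
        have hc : (hd l).c = true := by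
          by_contra hcon
          rw [Bool.not_eq_true] at hcon
          rw [hcon] at hrd
          have h0 : Sc (stk z p 1) = 0 := by
            apply X08_Sc0
            have := hrd.2
            simp only [vb] at this
            norm_num at this
            linarith
          rw [h0, h] at ht
          exact absurd ht (by norm_num)
        have := X08q_F cc cx true l 1 p (by decide) z1 hb1 hW1 hsz1 hD hv
        rw [hc] at this
        simp only [if_true] at this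
        rw [hz2]
        exact this
  obtain ⟨c3, c4⟩ := X09_cm cc cx false (p + 1) (p - 1) 0 z2 w2 c1 hE2 hb2 hb2' (by
    unfold Wt
    rw [d1, d1', hSc.1, hSc.2])
  obtain ⟨d3, -⟩ := cm_reg cc cx false (p + 1) (p - 1) hpm.symm 0 z2 hb2
  obtain ⟨d3', -⟩ := cm_reg cc cx false (p + 1) (p - 1) hpm.symm 0 w2 hb2'
  rw [← hz3] at c3 c4 d3
  rw [← hw3] at c3 c4 d3'
  rw [htz, htw', N1, N1, X08_reg_mkz, X08_reg_mkz]
  by_cases hk : k = 0
  · subst hk
    simp only [if_true]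
    refine X09_half ?_
    rw [d3, d3', d1, d1', z1r0, w1r0]
    ring
  · simp only [hk, if_false]
    refine X09_half2 ?_
    rw [c4 k hk, c2 k hk, z1r k hk, w1r k hk]

end Pool.Agent.Y203.QC
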